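import Mathlib

/-!
Definitions for MP_703902_co: path tree of a graph, moments of its adjacency operator, matching
measures, `0`-positive vertices.
-/

namespace Pool.Agent.Lib.MP_703902_co

open MeasureTheory

section Defs

variable {V : Type*}

/-- `l` is (the list of vertices of) a finite path of `G` starting at `o`.  The vertices are listed
from the last one to the first one, so that `o` is the last entry of the list and the endpoint of
the path is its first entry. -/
def IsPathFrom (G : SimpleGraph V) (o : V) (l : List V) : Prop :=
  l.IsChain G.Adj ∧ l.Nodup ∧ l.getLast? = some o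

/-- The set of finite paths of `G` starting at `o`. -/
abbrev PathFrom (G : SimpleGraph V) (o : V) := {l : List V // IsPathFrom G o l}

/-- The one-vertex path `o`. -/
def onePath (G : SimpleGraph V) (o : V) : PathFrom G o :=
  ⟨[o], List.isChain_singleton o, List.nodup_singleton o, rfl⟩

/-- The path tree `T(G, o)`: two finite paths starting at `o` are adjacent when one of them is
obtained from the other one by adding one vertex at the end. -/
def pathTree (G : SimpleGraph V) (o : V) : SimpleGraph (PathFrom G o) where
  Adj p q := (∃ x, p.1 = x :: q.1) ∨ (∃ x, q.1 = x :: p.1)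
  symm := ⟨fun _ _ h => h.symm⟩
  loopless := ⟨fun p h => by
    rcases h with ⟨x, hx⟩ | ⟨x, hx⟩ <;> simpa using congrArg List.length hx⟩

/-- The adjacency operator of a graph `H`, acting on functions on the vertices:
`(A f)(x) = ∑_{y ∼ x} f(y)`. -/
noncomputable def adjOp {T : Type*} (H : SimpleGraph T) (f : T → ℝ) (x : T) : ℝ :=
  ∑ᶠ y ∈ H.neighborSet x, f y

open Classical in
/-- The moment `⟨Aⁿ χ_o, χ_o⟩ = (Aⁿ χ_o)(o)` of the adjacency operator of `H` at the vertex `o`. -/
noncomputable def moment {T : Type*} (H : SimpleGraph T) (o : T) (n : ℕ) : ℝ :=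
  (adjOp H)^[n] (Pi.single o 1) o

/-- `ν` is the matching measure of `G` at `o`: a compactly supported probability measure whose
`n`-th moment is `⟨Aⁿ χ_o, χ_o⟩`, where `A` is the adjacency operator of the path tree `T(G, o)`
and `χ_o` is the indicator of the one-vertex path `o`.  (Such a measure is unique, being compactly
supported with given moments.) -/
structure IsMatchingMeasure (G : SimpleGraph V) (o : V) (ν : Measure ℝ) : Prop where
  prob : IsProbabilityMeasure ν
  supp : ∃ D : ℝ, ν (Set.Icc (-D) D)ᶜ = 0
  moments : ∀ n : ℕ, ∫ x, x ^ n ∂ν = moment (pathTree G o) (onePath G o) n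

/-- The graph `G - u`: all edges at `u` are deleted, so that `u` becomes an isolated vertex, which
plays no role for the components of the other vertices. -/
def deleteVertex (G : SimpleGraph V) (u : V) : SimpleGraph V where
  Adj a b := G.Adj a b ∧ a ≠ u ∧ b ≠ u
  symm := ⟨fun _ _ h => ⟨h.1.symm, h.2.2, h.2.1⟩⟩
  loopless := ⟨fun _ h => G.loopless.irrefl _ h.1⟩

/-- The vertex `u` is `0`-positive: for all neighbours `v` of `u` the matching measure
`ν_{G-u,v}` exists, and the sum over `v ∼ u` of `ν_{G-u,v}({0})` is positive. -/
def ZeroPositive (G : SimpleGraph V) (u : V) : Prop :=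
  (∀ v, G.Adj u v → ∃ ν, IsMatchingMeasure (deleteVertex G u) v ν) ∧
  ∀ ν : V → Measure ℝ, (∀ v, G.Adj u v → IsMatchingMeasure (deleteVertex G u) v (ν v)) →
    0 < ∑' v : G.neighborSet u, ν v {0}

/-- `G` is vertex-transitive. -/
def VertexTransitive (G : SimpleGraph V) : Prop := ∀ u v : V, ∃ φ : G ≃g G, φ u = v

end Defs

end Pool.Agent.Lib.MP_703902_co
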