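import Pool.Agent.Lib.MP_703902_co.Defs

/-!
# Every vertex of the bi-infinite ladder is `0`-positive (proofs)
-/

namespace Pool.Agent.Lib.MP_703902_co

open MeasureTheory


/-! ## The adjacency operator on finitely supported functions -/

section Operator

variable {T : Type*} {H : SimpleGraph T} (hfin : ∀ x, (H.neighborSet x).Finite)

/-- Finite set of neighbours. -/
noncomputable def nbF (x : T) : Finset T := (hfin x).toFinset

lemma mem_nbF (x y : T) : y ∈ nbF hfin x ↔ H.Adj x y := by simp [nbF]

lemma adjOp_eq (f : T → ℝ) (x : T) : adjOp H f x = ∑ y ∈ nbF hfin x, f y := by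
  unfold adjOp nbF
  exact finsum_mem_eq_finite_toFinset_sum _ (hfin x)

/-- The adjacency operator on finitely supported functions. -/
noncomputable def opA : Module.End ℝ (T →₀ ℝ) :=
  Finsupp.linearCombination ℝ fun x => ∑ y ∈ nbF hfin x, Finsupp.single y (1 : ℝ)

lemma opA_single (x : T) (c : ℝ) :
    opA hfin (Finsupp.single x c) = ∑ y ∈ nbF hfin x, Finsupp.single y c := by
  rw [opA, Finsupp.linearCombination_single, Finset.smul_sum]
  refine Finset.sum_congr rfl fun y _ => ?_
  rw [Finsupp.smul_single, smul_eq_mul, mul_one]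

lemma opA_apply (g : T →₀ ℝ) (y : T) : opA hfin g y = ∑ x ∈ nbF hfin y, g x := by
  classical
  induction g using Finsupp.induction_linear with
  | zero => simp
  | add f g hf hg => simp [map_add, hf, hg, Finset.sum_add_distrib]
  | single x c =>
    rw [opA_single, Finsupp.finsetSum_apply]
    simp only [Finsupp.single_apply]
    rw [Finset.sum_ite_eq', Finset.sum_ite_eq]
    simp only [mem_nbF, H.adj_comm]

lemma coe_opA (g : T →₀ ℝ) : ⇑(opA hfin g) = adjOp H ⇑g := by
  funext y
  rw [opA_apply, adjOp_eq hfin]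

lemma moment_eq (o : T) (n : ℕ) :
    moment H o n = ((opA hfin) ^ n) (Finsupp.single o 1) o := by
  classical
  have h : ∀ n : ℕ, ∀ g : T →₀ ℝ, (adjOp H)^[n] ⇑g = ⇑(((opA hfin) ^ n) g) := by
    intro n
    induction n with
    | zero => simp
    | succ n ih =>
      intro g
      rw [Function.iterate_succ_apply, ← coe_opA hfin, ih, pow_succ, Module.End.mul_apply]
  have e : (Pi.single o (1 : ℝ) : T → ℝ) = ⇑(Finsupp.single o (1 : ℝ)) := by
    funext x
    rw [Finsupp.single_apply, Pi.single_apply]
    simp only [eq_comm]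
  unfold moment
  rw [← h, ← e]

/-- The pairing of an arbitrary function with a finitely supported one. -/
noncomputable def pairing (f : T → ℝ) : (T →₀ ℝ) →ₗ[ℝ] ℝ := Finsupp.linearCombination ℝ f

lemma pairing_single (f : T → ℝ) (x : T) (c : ℝ) : pairing f (Finsupp.single x c) = c * f x := by
  simp [pairing]

lemma pairing_opA (f : T → ℝ) (g : T →₀ ℝ) :
    pairing f (opA hfin g) = pairing (adjOp H f) g := by
  induction g using Finsupp.induction_linear with
  | zero => simp
  | add g h hg hh => simp [map_add, hg, hh]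
  | single x c =>
    rw [opA_single, map_sum, pairing_single, adjOp_eq hfin, Finset.mul_sum]
    exact Finset.sum_congr rfl fun y _ => pairing_single f y c

open Polynomial in
lemma pairing_kernel (f : T → ℝ) (hf : ∀ x, adjOp H f x = 0) (P : ℝ[X]) (g : T →₀ ℝ) :
    pairing f ((aeval (opA hfin) P) g) = P.coeff 0 * pairing f g := by
  have h0 : adjOp H f = 0 := funext hf
  conv_lhs => rw [← Polynomial.divX_mul_X_add P, mul_comm]
  rw [map_add, map_mul, aeval_X, LinearMap.add_apply, Module.End.mul_apply, map_add, pairing_opA,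
    h0]
  simp [pairing]

open Polynomial in
lemma pairing_symm (g h : T →₀ ℝ) (P : ℝ[X]) :
    pairing ⇑g ((aeval (opA hfin) P) h) = pairing ⇑((aeval (opA hfin) P) g) h := by
  induction P using Polynomial.induction_on' with
  | add p q hp hq =>
    rw [map_add, LinearMap.add_apply, LinearMap.add_apply, map_add, hp, hq]
    simp [pairing, Finsupp.linearCombination_apply, Finsupp.sum, mul_add, Finset.sum_add_distrib]
  | monomial n a =>
    rw [aeval_monomial]
    simp only [Module.End.mul_apply, Module.algebraMap_end_apply, map_smul]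
    have key : ∀ n : ℕ, ∀ g h : T →₀ ℝ, pairing ⇑g (((opA hfin) ^ n) h) =
        pairing ⇑(((opA hfin) ^ n) g) h := by
      intro n
      induction n with
      | zero => intro g h; simp
      | succ n ih =>
        intro g h
        rw [pow_succ', Module.End.mul_apply, pairing_opA, ← coe_opA hfin, ih, ← Module.End.mul_apply,
          ← pow_succ, ← pow_succ']
    rw [key]
    simp [pairing, Finsupp.linearCombination_apply, Finsupp.sum, mul_left_comm, Finset.mul_sum]

end Operator

/-! ## Lower bound for the atom at zero -/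

section Atom

open Polynomial

variable {T : Type*} {H : SimpleGraph T} (hfin : ∀ x, (H.neighborSet x).Finite) {o : T}
  {ν : Measure ℝ}

lemma integrable_poly (hprob : IsProbabilityMeasure ν) {D : ℝ} (hD : ν (Set.Icc (-D) D)ᶜ = 0)
    (P : ℝ[X]) : Integrable (fun x => P.eval x) ν := by
  obtain ⟨C, hC⟩ := (isCompact_Icc (a := -D) (b := D)).exists_bound_of_continuousOn
    P.continuous.continuousOn
  refine Integrable.of_bound P.continuous.aestronglyMeasurable C ?_
  rw [ae_iff]
  refine measure_mono_null ?_ hD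
  intro x hx hx'
  exact hx (hC x hx')

include hfin

lemma integral_poly (hprob : IsProbabilityMeasure ν) {D : ℝ} (hD : ν (Set.Icc (-D) D)ᶜ = 0)
    (hmom : ∀ n : ℕ, ∫ x, x ^ n ∂ν = moment H o n) (P : ℝ[X]) :
    ∫ x, P.eval x ∂ν = (aeval (opA hfin) P) (Finsupp.single o 1) o := by
  induction P using Polynomial.induction_on' with
  | add p q hp hq =>
    simp only [eval_add, map_add, LinearMap.add_apply, Finsupp.add_apply]
    rw [integral_add (integrable_poly hprob hD p) (integrable_poly hprob hD q), hp, hq]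
  | monomial n a =>
    simp only [eval_monomial]
    rw [integral_const_mul, hmom, moment_eq hfin, aeval_monomial]
    simp [Module.End.mul_apply]

lemma atom_aux (hprob : IsProbabilityMeasure ν) {D : ℝ} (hD : ν (Set.Icc (-D) D)ᶜ = 0)
    (hmom : ∀ n : ℕ, ∫ x, x ^ n ∂ν = moment H o n) (f : T → ℝ) (hf : ∀ x, adjOp H f x = 0)
    (hfo : f o = 1) (C : ℝ) (hC : ∀ F : Finset T, ∑ x ∈ F, f x ^ 2 ≤ C) (P : ℝ[X])
    (hP : P.coeff 0 = 1) : 1 ≤ C * ∫ x, (P * P).eval x ∂ν := by
  set g := (aeval (opA hfin) P) (Finsupp.single o 1) with hg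
  have h1 : pairing f g = 1 := by
    rw [hg, pairing_kernel hfin f hf, hP, pairing_single, hfo]
    norm_num
  have h2 : pairing ⇑g g = ∫ x, (P * P).eval x ∂ν := by
    rw [integral_poly hfin hprob hD hmom]
    conv_lhs => rw [hg]
    rw [← hg, pairing_symm hfin, pairing_single, one_mul, map_mul, Module.End.mul_apply, ← hg]
  have h3 : pairing f g = ∑ x ∈ g.support, g x * f x := by
    simp [pairing, Finsupp.linearCombination_apply, Finsupp.sum]
  have h4 : pairing ⇑g g = ∑ x ∈ g.support, g x ^ 2 := by
    simp [pairing, Finsupp.linearCombination_apply, Finsupp.sum, sq]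
  have h5 := Finset.sum_mul_sq_le_sq_mul_sq g.support g f
  rw [← h3, ← h4, h1, h2] at h5
  have h6 := hC g.support
  have h7 : 0 ≤ ∫ x, (P * P).eval x ∂ν := by
    rw [← h2, h4]
    positivity
  calc (1 : ℝ) = 1 ^ 2 := by norm_num
    _ ≤ (∫ x, (P * P).eval x ∂ν) * ∑ x ∈ g.support, f x ^ 2 := h5
    _ ≤ (∫ x, (P * P).eval x ∂ν) * C := mul_le_mul_of_nonneg_left h6 h7
    _ = C * ∫ x, (P * P).eval x ∂ν := mul_comm _ _

/-- If `f` is a square-summable function in the kernel of the adjacency operator with `f o = 1` and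
`‖f‖² ≤ C`, then a spectral measure at `o` has an atom of mass at least `1 / C` at zero. -/
lemma atom_bound (hprob : IsProbabilityMeasure ν) {D : ℝ} (hD : ν (Set.Icc (-D) D)ᶜ = 0)
    (hmom : ∀ n : ℕ, ∫ x, x ^ n ∂ν = moment H o n) (f : T → ℝ) (hf : ∀ x, adjOp H f x = 0)
    (hfo : f o = 1) (C : ℝ) (hC : ∀ F : Finset T, ∑ x ∈ F, f x ^ 2 ≤ C) :
    1 ≤ C * ν.real {0} := by
  set E : ℝ := max |D| 1 with hE
  have hE1 : 1 ≤ E := le_max_right _ _
  have hE0 : 0 < E := by linarith
  have hDE : |D| ≤ E := le_max_left _ _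
  -- the polynomials
  set P : ℕ → ℝ[X] := fun n => (1 - Polynomial.C (E ^ 2)⁻¹ * X ^ 2) ^ n with hP
  have hP0 : ∀ n, (P n).coeff 0 = 1 := by
    intro n
    rw [Polynomial.coeff_zero_eq_eval_zero]
    simp [hP]
  have hev : ∀ n x, (P n * P n).eval x = ((1 - x ^ 2 / E ^ 2) ^ 2) ^ n := by
    intro n x
    simp only [hP, eval_mul, eval_pow, eval_sub, eval_one, eval_C, eval_X]
    rw [← mul_pow]
    congr 1
    ring
  have hineq : ∀ n, 1 ≤ C * ∫ x, ((1 - x ^ 2 / E ^ 2) ^ 2) ^ n ∂ν := by
    intro n
    have := atom_aux hfin hprob hD hmom f hf hfo C hC (P n) (hP0 n)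
    simpa only [hev] using this
  have hsub : ∀ x ∈ Set.Icc (-D) D, x ^ 2 / E ^ 2 ≤ 1 := by
    intro x hx
    rw [div_le_one (by positivity)]
    have : |x| ≤ E := (abs_le.mpr ⟨hx.1, hx.2⟩).trans ((le_abs_self D).trans hDE)
    rw [← sq_abs x]
    exact pow_le_pow_left₀ (abs_nonneg x) this 2
  have hae : ∀ᵐ x ∂ν, x ∈ Set.Icc (-D) D := by
    rw [ae_iff]
    exact hD
  have hlim : Filter.Tendsto (fun n => ∫ x, ((1 - x ^ 2 / E ^ 2) ^ 2) ^ n ∂ν) Filter.atTop
      (nhds (∫ x, (Set.indicator {(0 : ℝ)} (fun _ => (1 : ℝ))) x ∂ν)) := by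
    refine tendsto_integral_of_dominated_convergence (fun _ => (1 : ℝ)) ?_ ?_ ?_ ?_
    · intro n
      exact Continuous.aestronglyMeasurable (by fun_prop)
    · exact integrable_const _
    · intro n
      filter_upwards [hae] with x hx
      have h1 := hsub x hx
      have h2 : 0 ≤ x ^ 2 / E ^ 2 := by positivity
      rw [Real.norm_of_nonneg (by positivity)]
      refine pow_le_one₀ (by positivity) ?_
      nlinarith
    · filter_upwards [hae] with x hx
      by_cases h0 : x = 0
      · subst h0
        simp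
      · have h1 := hsub x hx
        have h2 : 0 < x ^ 2 / E ^ 2 := by positivity
        rw [Set.indicator_of_notMem (by simpa using h0)]
        refine tendsto_pow_atTop_nhds_zero_of_lt_one (by positivity) ?_
        nlinarith
  rw [integral_indicator_const _ (measurableSet_singleton 0), smul_eq_mul, mul_one] at hlim
  exact ge_of_tendsto' (hlim.const_mul C) hineq

end Atom

/-! ## Existence of spectral measures for graphs of bounded degree -/

section Existence

open Classical

variable {T : Type*} {H : SimpleGraph T} (hfin : ∀ x, (H.neighborSet x).Finite) (o : T)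

/-- The ball of radius `n` about `o`, as a finite set. -/
noncomputable def ballF : ℕ → Finset T
  | 0 => {o}
  | n + 1 => ballF n ∪ (ballF n).biUnion (nbF hfin)

lemma self_mem_ballF (n : ℕ) : o ∈ ballF hfin o n := by
  induction n with
  | zero => simp [ballF]
  | succ n ih => exact Finset.mem_union_left _ ih

lemma ballF_mono {m n : ℕ} (h : m ≤ n) : ballF hfin o m ⊆ ballF hfin o n := by
  induction n, h using Nat.le_induction with
  | base => exact Finset.Subset.refl _
  | succ n _ ih => exact ih.trans Finset.subset_union_left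

lemma support_pow (k : ℕ) (x : T) (hx : ((opA hfin) ^ k) (Finsupp.single o 1) x ≠ 0) :
    x ∈ ballF hfin o k := by
  induction k generalizing x with
  | zero =>
    simp only [pow_zero, Module.End.one_apply, Finsupp.single_apply, ne_eq, ite_eq_right_iff,
      one_ne_zero, imp_false, not_not] at hx
    simp [ballF, hx]
  | succ k ih =>
    rw [pow_succ', Module.End.mul_apply, opA_apply] at hx
    obtain ⟨y, hy, hy'⟩ := Finset.exists_ne_zero_of_sum_ne_zero hx
    refine Finset.mem_union_right _ (Finset.mem_biUnion.mpr ⟨y, ih y hy', ?_⟩)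
    rw [mem_nbF] at hy ⊢
    exact hy.symm

/-- Adjacency matrix of the induced subgraph on a finite set. -/
noncomputable def adjM (S : Finset T) : Matrix S S ℝ := fun x y => if H.Adj x.1 y.1 then 1 else 0

omit hfin in
lemma adjM_hermitian (S : Finset T) : (adjM (H := H) S).IsHermitian := by
  ext x y
  simp [adjM, Matrix.conjTranspose_apply, H.adj_comm]

lemma adjM_pow (n k : ℕ) (hk : k ≤ n) (x : ballF hfin o n) :
    ((adjM (H := H) (ballF hfin o n)) ^ k) x ⟨o, self_mem_ballF hfin o n⟩ =
      ((opA hfin) ^ k) (Finsupp.single o 1) x.1 := by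
  induction k generalizing x with
  | zero =>
    simp only [pow_zero, Module.End.one_apply, Finsupp.single_apply, Matrix.one_apply]
    congr 1
    rw [eq_iff_iff, eq_comm, Subtype.ext_iff]
  | succ k ih =>
    rw [pow_succ', Matrix.mul_apply, pow_succ', Module.End.mul_apply, opA_apply]
    have h1 : ∀ y : ballF hfin o n, (adjM (H := H) (ballF hfin o n)) x y *
        ((adjM (H := H) (ballF hfin o n)) ^ k) y ⟨o, self_mem_ballF hfin o n⟩ =
        (fun z : T => if H.Adj x.1 z then ((opA hfin) ^ k) (Finsupp.single o 1) z else 0) y.1 := by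
      intro y
      rw [ih (by omega) y]
      simp [adjM]
    rw [Finset.sum_congr rfl fun y _ => h1 y]
    rw [Finset.sum_coe_sort (ballF hfin o n)
      (fun z : T => if H.Adj x.1 z then ((opA hfin) ^ k) (Finsupp.single o 1) z else 0)]
    rw [← Finset.sum_filter]
    refine Finset.sum_subset_zero_on_sdiff ?_ ?_ ?_
    · intro z hz
      rw [Finset.mem_filter] at hz
      rw [mem_nbF]
      exact hz.2
    · intro z hz
      rw [Finset.mem_sdiff, Finset.mem_filter, mem_nbF] at hz
      by_contra hne
      exact hz.2 ⟨ballF_mono hfin o (by omega : k ≤ n) (support_pow hfin o k z hne), hz.1⟩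
    · intro z _
      rfl

omit hfin in
lemma eigenvalue_bound (S : Finset T) (D : ℕ) (hD : ∀ x ∈ S, (S.filter fun y => H.Adj x y).card ≤ D)
    (j : S) : |(adjM_hermitian (H := H) S).eigenvalues j| ≤ D := by
  set hA := adjM_hermitian (H := H) S
  have hev : Module.End.HasEigenvalue (Matrix.toLin' (adjM (H := H) S)) (hA.eigenvalues j) := by
    refine Module.End.hasEigenvalue_of_hasEigenvector (x := ⇑(hA.eigenvectorBasis j)) ⟨?_, ?_⟩
    · rw [Module.End.mem_eigenspace_iff, Matrix.toLin'_apply]
      exact hA.mulVec_eigenvectorBasis j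
    · intro h0
      have h1 := hA.eigenvectorBasis.orthonormal.1 j
      have h2 : hA.eigenvectorBasis j = 0 := by
        ext i
        exact congrFun h0 i
      rw [h2, norm_zero] at h1
      exact zero_ne_one h1
  obtain ⟨k, hk⟩ := eigenvalue_mem_ball hev
  rw [Metric.mem_closedBall, Real.dist_eq] at hk
  have h0 : adjM (H := H) S k k = 0 := by simp [adjM]
  rw [h0, sub_zero] at hk
  refine hk.trans ?_
  calc ∑ i ∈ Finset.univ.erase k, ‖adjM (H := H) S k i‖
      ≤ ∑ i : S, ‖adjM (H := H) S k i‖ :=
        Finset.sum_le_sum_of_subset_of_nonneg (Finset.erase_subset _ _)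
          fun _ _ _ => norm_nonneg _
    _ = ∑ i : S, (fun z : T => if H.Adj k.1 z then (1 : ℝ) else 0) i.1 := by
        refine Finset.sum_congr rfl fun i _ => ?_
        by_cases h : H.Adj k.1 i.1 <;> simp [adjM, h]
    _ = ∑ i ∈ S, (if H.Adj k.1 i then (1 : ℝ) else 0) :=
        Finset.sum_coe_sort S (fun z : T => if H.Adj k.1 z then (1 : ℝ) else 0)
    _ = ((S.filter fun y => H.Adj k.1 y).card : ℝ) := by
        rw [Finset.sum_ite, Finset.sum_const_zero, add_zero, Finset.sum_const, nsmul_eq_mul,
          mul_one]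
    _ ≤ D := by exact_mod_cast hD k.1 k.2

omit hfin in
/-- The spectral measure of a finite symmetric matrix, on the interval `[-D, D]`. -/
lemma exists_matrix_measure (S : Finset T) (D : ℕ)
    (hD : ∀ x ∈ S, (S.filter fun y => H.Adj x y).card ≤ D) (a : S) :
    ∃ μ : ProbabilityMeasure (Set.Icc (-(D : ℝ)) D), ∀ k : ℕ,
      ∫ x, (x : ℝ) ^ k ∂(μ : Measure (Set.Icc (-(D : ℝ)) D)) = ((adjM (H := H) S) ^ k) a a := by
  set hA := adjM_hermitian (H := H) S
  have hlam : ∀ j, hA.eigenvalues j ∈ Set.Icc (-(D : ℝ)) D := fun j =>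
    abs_le.mp (eigenvalue_bound S D hD j)
  set c : S → ℝ := fun j => (hA.eigenvectorBasis j a) ^ 2 with hc
  have hcnn : ∀ j, 0 ≤ c j := fun j => sq_nonneg _
  set U : Matrix S S ℝ := (hA.eigenvectorUnitary : Matrix S S ℝ) with hU
  have hUU : U * star U = 1 := Unitary.coe_mul_star_self hA.eigenvectorUnitary
  have hUapp : ∀ i j, U i j = hA.eigenvectorBasis j i := fun i j => rfl
  have hpow : ∀ k : ℕ, ∀ i j, ((adjM (H := H) S) ^ k * U) i j =
      hA.eigenvalues j ^ k * hA.eigenvectorBasis j i := by
    intro k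
    induction k with
    | zero => intro i j; rw [pow_zero, pow_zero, one_mul, one_mul, hUapp]
    | succ k ih =>
      intro i j
      rw [pow_succ', mul_assoc, Matrix.mul_apply]
      simp only [ih]
      have h1 := congrFun (hA.mulVec_eigenvectorBasis j) i
      simp only [Matrix.mulVec, dotProduct, Pi.smul_apply, smul_eq_mul] at h1
      rw [pow_succ, mul_assoc, ← h1, Finset.mul_sum]
      exact Finset.sum_congr rfl fun x _ => by ring
  have hmom : ∀ k : ℕ, ((adjM (H := H) S) ^ k) a a = ∑ j, c j * hA.eigenvalues j ^ k := by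
    intro k
    have h1 : (adjM (H := H) S) ^ k = ((adjM (H := H) S) ^ k * U) * star U := by
      rw [mul_assoc, hUU, mul_one]
    rw [h1, Matrix.mul_apply]
    refine Finset.sum_congr rfl fun j _ => ?_
    rw [hpow, Matrix.star_apply, hUapp]
    simp only [hc, star_trivial]
    ring
  have hsum : ∑ j, c j = 1 := by
    have := hmom 0
    simpa using this.symm
  set m : Measure (Set.Icc (-(D : ℝ)) D) :=
    ∑ j, ENNReal.ofReal (c j) • Measure.dirac (⟨hA.eigenvalues j, hlam j⟩) with hm
  have hprob : IsProbabilityMeasure m := by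
    constructor
    rw [hm, Measure.finsetSum_apply]
    simp only [Measure.smul_apply, measure_univ, smul_eq_mul, mul_one]
    rw [← ENNReal.ofReal_sum_of_nonneg fun j _ => hcnn j, hsum, ENNReal.ofReal_one]
  refine ⟨⟨m, hprob⟩, fun k => ?_⟩
  change ∫ x : Set.Icc (-(D : ℝ)) D, (x : ℝ) ^ k ∂m = _
  rw [hmom, hm, integral_finsetSum_measure]
  · refine Finset.sum_congr rfl fun j _ => ?_
    rw [integral_smul_measure, integral_dirac, ENNReal.toReal_ofReal (hcnn j), smul_eq_mul]
  · intro j _
    refine Integrable.smul_measure ?_ ENNReal.ofReal_ne_top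
    exact integrable_dirac (by simp)

/-- Existence of the spectral measure at a vertex of a graph with degrees at most `D`. -/
theorem exists_spectral (D : ℕ) (hD : ∀ x, (nbF hfin x).card ≤ D) :
    ∃ ν : Measure ℝ, IsProbabilityMeasure ν ∧ ν (Set.Icc (-(D : ℝ)) D)ᶜ = 0 ∧
      ∀ n : ℕ, ∫ x, x ^ n ∂ν = moment H o n := by
  have hD' : ∀ (S : Finset T), ∀ x ∈ S, (S.filter fun y => H.Adj x y).card ≤ D := by
    intro S x _
    refine (Finset.card_le_card fun y hy => ?_).trans (hD x)
    rw [mem_nbF]
    exact (Finset.mem_filter.mp hy).2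
  choose μ hμ using fun n : ℕ => exists_matrix_measure (H := H) (ballF hfin o n) D
    (hD' _) ⟨o, self_mem_ballF hfin o n⟩
  -- a limit along an ultrafilter
  let F : Ultrafilter ℕ := Ultrafilter.of Filter.atTop
  have hF : (F : Filter ℕ) ≤ Filter.atTop := Ultrafilter.of_le Filter.atTop
  obtain ⟨m, hm⟩ : ∃ m : ProbabilityMeasure (Set.Icc (-(D : ℝ)) D),
      Filter.Tendsto μ F (nhds m) := by
    have := isCompact_univ (X := ProbabilityMeasure (Set.Icc (-(D : ℝ)) D))
    obtain ⟨m, -, hm⟩ := isCompact_iff_ultrafilter_le_nhds.mp this (F.map μ) (by simp)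
    exact ⟨m, hm⟩
  have hmom : ∀ k : ℕ, ∫ x, (x : ℝ) ^ k ∂(m : Measure (Set.Icc (-(D : ℝ)) D)) =
      moment H o k := by
    intro k
    let g : BoundedContinuousFunction (Set.Icc (-(D : ℝ)) D) ℝ :=
      BoundedContinuousFunction.mkOfCompact ⟨fun x => (x : ℝ) ^ k, by fun_prop⟩
    have h1 := (ProbabilityMeasure.tendsto_iff_forall_integral_tendsto.mp hm) g
    have h2 : Filter.Tendsto (fun n => ∫ x, g x ∂(μ n : Measure (Set.Icc (-(D : ℝ)) D))) F
        (nhds (moment H o k)) := by
      refine Filter.Tendsto.congr' ?_ tendsto_const_nhds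
      refine hF (Filter.mem_of_superset (Filter.mem_atTop k) fun n hn => ?_)
      change moment H o k = ∫ x, (x : ℝ) ^ k ∂(μ n : Measure (Set.Icc (-(D : ℝ)) D))
      rw [hμ n k, adjM_pow hfin o n k hn, moment_eq hfin]
    exact tendsto_nhds_unique h1 h2
  refine ⟨(m : Measure (Set.Icc (-(D : ℝ)) D)).map Subtype.val, ?_, ?_, fun n => ?_⟩
  · exact Measure.isProbabilityMeasure_map measurable_subtype_coe.aemeasurable
  · rw [Measure.map_apply measurable_subtype_coe measurableSet_Icc.compl]
    have : (Subtype.val ⁻¹' (Set.Icc (-(D : ℝ)) D)ᶜ : Set (Set.Icc (-(D : ℝ)) D)) = ∅ := by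
      ext x
      simp
    rw [this, measure_empty]
  · rw [integral_map measurable_subtype_coe.aemeasurable
      (Continuous.aestronglyMeasurable (by fun_prop))]
    exact hmom n

end Existence

/-! ## Local finiteness of path trees -/

section PathTree

open Classical

variable {V : Type*} {G : SimpleGraph V} {o : V}

/-- Candidates for the neighbours of a path in the path tree. -/
noncomputable def cand (nb : V → Finset V) : List V → Finset (List V)
  | [] => ∅
  | x :: t => insert t ((nb x).image fun y => y :: x :: t)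

lemma cand_card (nb : V → Finset V) (D : ℕ) (hD : ∀ v, (nb v).card ≤ D) (l : List V) :
    (cand nb l).card ≤ D + 1 := by
  cases l with
  | nil => simp [cand]
  | cons x t =>
    exact (Finset.card_insert_le _ _).trans
      (Nat.add_le_add_right (Finset.card_image_le.trans (hD x)) 1)

lemma mem_cand (nb : V → Finset V) (hnb : ∀ v w, G.Adj v w → w ∈ nb v) (p q : PathFrom G o)
    (h : (pathTree G o).Adj p q) : q.1 ∈ cand nb p.1 := by
  rcases h with ⟨x, hx⟩ | ⟨x, hx⟩
  · rw [hx]
    exact Finset.mem_insert_self _ _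
  · obtain ⟨l, hl⟩ := p
    obtain ⟨l', hl'⟩ := q
    dsimp only at hx ⊢
    subst hx
    cases l with
    | nil => simpa using hl.2.2
    | cons y t =>
      refine Finset.mem_insert_of_mem (Finset.mem_image.mpr ⟨x, hnb _ _ ?_, rfl⟩)
      exact (List.isChain_cons_cons.mp hl'.1).1.symm

lemma pathTree_fin (nb : V → Finset V) (hnb : ∀ v w, G.Adj v w → w ∈ nb v) (p : PathFrom G o) :
    ((pathTree G o).neighborSet p).Finite := by
  refine Set.Finite.of_finite_image (f := Subtype.val) ?_ Subtype.val_injective.injOn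
  refine (cand nb p.1).finite_toSet.subset ?_
  rintro _ ⟨q, hq, rfl⟩
  exact mem_cand nb hnb p q hq

lemma pathTree_card (nb : V → Finset V) (hnb : ∀ v w, G.Adj v w → w ∈ nb v) (D : ℕ)
    (hD : ∀ v, (nb v).card ≤ D) (p : PathFrom G o) :
    (nbF (pathTree_fin (o := o) nb hnb) p).card ≤ D + 1 := by
  refine le_trans ?_ (cand_card nb D hD p.1)
  refine Finset.card_le_card_of_injOn Subtype.val (fun q hq => ?_) Subtype.val_injective.injOn
  exact mem_cand nb hnb p q ((mem_nbF _ _ _).mp hq)

/-- The value of the adjacency operator of the path tree at a path with at least two vertices. -/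
lemma adjOp_pathTree (nb : V → Finset V) (hnb : ∀ v w, G.Adj v w → w ∈ nb v) (F : List V → ℝ)
    (w h : V) (t : List V) (hp : IsPathFrom G o (w :: h :: t)) :
    adjOp (pathTree G o) (fun q => F q.1) ⟨w :: h :: t, hp⟩ =
      F (h :: t) + ∑ y ∈ nb w, if IsPathFrom G o (y :: w :: h :: t) then
        F (y :: w :: h :: t) else 0 := by
  have hpar : IsPathFrom G o (h :: t) :=
    ⟨(List.isChain_cons_cons.mp hp.1).2, (List.nodup_cons.mp hp.2.1).2, by
      have := hp.2.2
      rwa [List.getLast?_cons_cons] at this⟩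
  rw [adjOp_eq (pathTree_fin (o := o) nb hnb)]
  have h1 : ∑ q ∈ nbF (pathTree_fin (o := o) nb hnb) ⟨w :: h :: t, hp⟩, F q.1 =
      ∑ l ∈ (cand nb (w :: h :: t)).filter (IsPathFrom G o), F l := by
    refine Finset.sum_bij (fun q _ => q.1) ?_ ?_ ?_ ?_
    · intro q hq
      exact Finset.mem_filter.mpr ⟨mem_cand nb hnb _ q ((mem_nbF _ _ _).mp hq), q.2⟩
    · intro q _ q' _ h
      exact Subtype.ext h
    · intro l hl
      obtain ⟨hl1, hl2⟩ := Finset.mem_filter.mp hl
      refine ⟨⟨l, hl2⟩, (mem_nbF _ _ _).mpr ?_, rfl⟩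
      rcases Finset.mem_insert.mp hl1 with rfl | hl1
      · exact Or.inl ⟨w, rfl⟩
      · obtain ⟨y, -, rfl⟩ := Finset.mem_image.mp hl1
        exact Or.inr ⟨y, rfl⟩
    · intro q _
      rfl
  rw [h1, cand, Finset.filter_insert, if_pos hpar, Finset.sum_insert]
  · congr 1
    rw [Finset.sum_filter, Finset.sum_image]
    intro y _ y' _ h
    simpa using h
  · intro hcon
    obtain ⟨y, -, hy⟩ := Finset.mem_image.mp (Finset.mem_filter.mp hcon).1
    have := congrArg List.length hy
    simp only [List.length_cons] at this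
    omega

end PathTree

/-! ## The ladder -/

section Ladder

/-- The bi-infinite ladder `ℤ × K₂`. -/
def ladder : SimpleGraph (ℤ × Bool) where
  Adj p q := (p.2 = q.2 ∧ |p.1 - q.1| = 1) ∨ (p.2 ≠ q.2 ∧ p.1 = q.1)
  symm := ⟨by
    rintro p q (⟨h1, h2⟩ | ⟨h1, h2⟩)
    · exact Or.inl ⟨h1.symm, by rwa [abs_sub_comm]⟩
    · exact Or.inr ⟨h1.symm, h2.symm⟩⟩
  loopless := ⟨by
    rintro p (⟨-, h⟩ | ⟨h, -⟩)
    · simp at h
    · exact h rfl⟩

/-- The three neighbours of a vertex of the ladder. -/
def nb (p : ℤ × Bool) : Finset (ℤ × Bool) := {(p.1 + 1, p.2), (p.1 - 1, p.2), (p.1, !p.2)}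

lemma mem_nb (p q : ℤ × Bool) : q ∈ nb p ↔ ladder.Adj p q := by
  obtain ⟨a, s⟩ := p
  obtain ⟨b, t⟩ := q
  change _ ↔ (s = t ∧ |a - b| = 1) ∨ (s ≠ t ∧ a = b)
  simp only [nb, Finset.mem_insert, Finset.mem_singleton, Prod.mk.injEq]
  have e : |a - b| = 1 ↔ (b = a + 1 ∨ b = a - 1) := by
    rw [abs_eq (by norm_num)]
    omega
  rw [e]
  cases s <;> cases t <;> simp <;> omega

lemma sum_nb (p : ℤ × Bool) (F : ℤ × Bool → ℝ) :
    ∑ q ∈ nb p, F q = F (p.1 + 1, p.2) + (F (p.1 - 1, p.2) + F (p.1, !p.2)) := by
  unfold nb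
  rw [Finset.sum_insert, Finset.sum_insert, Finset.sum_singleton]
  · simp
  · simp only [Finset.mem_insert, Prod.mk.injEq, and_true, Finset.mem_singleton, not_or]
    refine ⟨by omega, by simp⟩

lemma card_nb (p : ℤ × Bool) : (nb p).card ≤ 3 := Finset.card_le_three

/-! ### The strategy: states, transitions and invariants -/

/-- States of the strategy that defines the kernel vector. -/
inductive St
  | root
  | T (ε : ℤ)
  | S1 (ε : ℤ)
  | S2 (ε : ℤ)
  | D

open Classical in
/-- The choice made when the new column of `w` is entered in direction `ε`. -/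
noncomputable def corner (ε : ℤ) (w x : ℤ × Bool) : ℝ × St :=
  if x = (w.1, !w.2) then (-(2 / 3), St.T ε)
  else if x = (w.1 + ε, w.2) then (-(1 / 3), St.S1 ε)
  else (0, St.D)

open Classical in
/-- One step of the strategy: the path is at `h` in the state `s` and is extended by `w` and then
by `x`; the result is the factor by which the value is multiplied, and the new state. -/
noncomputable def step (s : St) (h w x : ℤ × Bool) : ℝ × St :=
  match s with
  | St.root => if w = (h.1 + 1, h.2) then corner 1 w x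
      else if w = (h.1 - 1, h.2) then corner (-1) w x else (0, St.D)
  | St.T ε => if w = (h.1 + ε, h.2) then corner ε w x else (0, St.D)
  | St.S1 ε => if w = (h.1, !h.2) then (if x = (h.1 - ε, !h.2) then (-1, St.D) else (0, St.D))
      else if w = (h.1 + ε, h.2) then
        (if x = (h.1 + ε, !h.2) then (-1, St.S2 ε) else (0, St.D))
      else (0, St.D)
  | St.S2 ε => if w = (h.1 - ε, h.2) then
        (if x = (h.1 - 2 * ε, h.2) then (-1, St.D) else (0, St.D))
      else if w = (h.1 + ε, h.2) then corner ε w x else (0, St.D)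
  | St.D => (0, St.D)

/-- All columns strictly beyond column `k` in direction `ε` are unvisited. -/
def Fresh (ε k : ℤ) (A : Set (ℤ × Bool)) : Prop := ∀ z : ℤ × Bool, 0 < ε * (z.1 - k) → z ∉ A

/-- The invariants of the states; `h` is the current endpoint and `A` the set of vertices visited
so far (including the deleted vertex). -/
def Inv (s : St) (h : ℤ × Bool) (A : Set (ℤ × Bool)) : Prop :=
  match s with
  | St.root => h ∈ A ∧ (h.1, !h.2) ∈ A ∧ Fresh 1 h.1 A ∧ Fresh (-1) h.1 A
  | St.T ε => (ε = 1 ∨ ε = -1) ∧ h ∈ A ∧ (h.1, !h.2) ∈ A ∧ (h.1 - ε, h.2) ∈ A ∧ Fresh ε h.1 A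
  | St.S1 ε => (ε = 1 ∨ ε = -1) ∧ h ∈ A ∧ (h.1 - ε, h.2) ∈ A ∧ (h.1 - 2 * ε, !h.2) ∈ A ∧
      (h.1, !h.2) ∉ A ∧ (h.1 - ε, !h.2) ∉ A ∧ Fresh ε h.1 A
  | St.S2 ε => (ε = 1 ∨ ε = -1) ∧ h ∈ A ∧ (h.1, !h.2) ∈ A ∧ (h.1 - ε, !h.2) ∈ A ∧
      (h.1 - 2 * ε, !h.2) ∈ A ∧ (h.1 - 3 * ε, h.2) ∈ A ∧ (h.1 - ε, h.2) ∉ A ∧
      (h.1 - 2 * ε, h.2) ∉ A ∧ Fresh ε h.1 A
  | St.D => ∀ q ∈ nb h, q ∈ A

/-- The situation in which a new column is entered at `w` in direction `ε`. -/
def CornerInv (ε : ℤ) (w : ℤ × Bool) (A : Set (ℤ × Bool)) : Prop :=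
  (ε = 1 ∨ ε = -1) ∧ (w.1 - ε, w.2) ∈ A ∧ (w.1 - ε, !w.2) ∈ A ∧ Fresh ε (w.1 - ε) A

open Classical in
lemma corner_sum (ε : ℤ) (w : ℤ × Bool) (A : Set (ℤ × Bool)) (h : CornerInv ε w A) :
    ∑ x ∈ nb w, (if x ∈ A then 0 else (corner ε w x).1) = -1 := by
  obtain ⟨k, r⟩ := w
  obtain ⟨hε, h1, h2, hf⟩ := h
  rw [sum_nb]
  have hA1 : (k, !r) ∉ A := hf _ (by rcases hε with rfl | rfl <;> simp)
  have hA2 : (k + ε, r) ∉ A := hf _ (by rcases hε with rfl | rfl <;> simp)
  rcases hε with rfl | rfl
  · dsimp only at h1 h2 hA1 hA2 ⊢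
    rw [if_neg hA2, if_pos h1, if_neg hA1]
    have e1 : ((k + 1, r) : ℤ × Bool) ≠ (k, !r) := by simp
    simp only [corner, e1, if_true, if_false]
    norm_num
  · dsimp only at h1 h2 hA1 hA2 ⊢
    have h1' : ((k + 1, r) : ℤ × Bool) ∈ A := by simpa using h1
    have hA2' : ((k - 1, r) : ℤ × Bool) ∉ A := by simpa [sub_eq_add_neg] using hA2
    rw [if_pos h1', if_neg hA2', if_neg hA1]
    have e1 : ((k - 1, r) : ℤ × Bool) ≠ (k, !r) := by simp
    have e2 : ((k - 1, r) : ℤ × Bool) = (k + -1, r) := by rw [sub_eq_add_neg]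
    simp only [corner, e2, if_true]
    norm_num

lemma corner_inv (ε : ℤ) (w x : ℤ × Bool) (A : Set (ℤ × Bool)) (h : CornerInv ε w A)
    (hc : (corner ε w x).1 ≠ 0) : Inv (corner ε w x).2 x (insert x (insert w A)) := by
  obtain ⟨k, r⟩ := w
  obtain ⟨hε, h1, h2, hf⟩ := h
  unfold corner at hc ⊢
  dsimp only at h1 h2 hf hc ⊢
  by_cases hx1 : x = (k, !r)
  · subst hx1
    rw [if_pos rfl]
    refine ⟨hε, by simp, by simp, ?_, ?_⟩
    · exact Or.inr (Or.inr h2)
    · intro z hz hmem
      rcases hmem with rfl | rfl | hmem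
      · simp at hz
      · simp at hz
      · refine hf z ?_ hmem
        rcases hε with rfl | rfl
        · dsimp only at hz
          omega
        · dsimp only at hz
          omega
  · rw [if_neg hx1] at hc ⊢
    by_cases hx2 : x = (k + ε, r)
    · subst hx2
      rw [if_pos rfl]
      refine ⟨hε, by simp, by simp, ?_, ?_, ?_, ?_⟩
      · refine Or.inr (Or.inr ?_)
        have : (k + ε - 2 * ε, !r) = (k - ε, !r) := by
          congr 1
          ring
        dsimp only
        rw [this]
        exact h2
      · rintro (h3 | h3 | h3)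
        · simp at h3
        · simp at h3
        · refine hf _ ?_ h3
          rcases hε with rfl | rfl <;> dsimp only <;> omega
      · rintro (h3 | h3 | h3)
        · simp at h3
        · simp at h3
        · refine hf _ ?_ h3
          rcases hε with rfl | rfl <;> dsimp only <;> omega
      · intro z hz hmem
        rcases hmem with rfl | rfl | hmem
        · simp at hz
        · rcases hε with rfl | rfl <;> dsimp only at hz <;> omega
        · refine hf z ?_ hmem
          rcases hε with rfl | rfl <;> dsimp only at hz <;> omega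
    · rw [if_neg hx2] at hc
      exact absurd rfl hc

lemma cornerInv_of (ε k : ℤ) (r : Bool) (A : Set (ℤ × Bool)) (hε : ε = 1 ∨ ε = -1)
    (h1 : (k, r) ∈ A) (h2 : (k, !r) ∈ A) (hf : Fresh ε k A) : CornerInv ε (k + ε, r) A := by
  refine ⟨hε, ?_, ?_, ?_⟩ <;> simpa [add_sub_cancel_right] using by assumption

lemma nb_cases (k : ℤ) (r : Bool) (w : ℤ × Bool) (ε : ℤ) (hε : ε = 1 ∨ ε = -1)
    (hw : w ∈ nb (k, r)) : w = (k + ε, r) ∨ w = (k - ε, r) ∨ w = (k, !r) := by
  simp only [nb, Finset.mem_insert, Finset.mem_singleton] at hw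
  rcases hε with rfl | rfl
  · exact hw
  · rcases hw with rfl | rfl | rfl
    · right; left; simp
    · left; rfl
    · right; right; rfl

lemma sum_nb' (k : ℤ) (r : Bool) (ε : ℤ) (hε : ε = 1 ∨ ε = -1) (F : ℤ × Bool → ℝ) :
    ∑ q ∈ nb (k, r), F q = F (k + ε, r) + (F (k - ε, r) + F (k, !r)) := by
  rw [sum_nb]
  rcases hε with rfl | rfl
  · rfl
  · have e1 : k - -1 = k + 1 := by ring
    have e2 : k + -1 = k - 1 := by ring
    rw [e1, e2]
    ring

open Classical in
lemma step_sum (s : St) (h w : ℤ × Bool) (A : Set (ℤ × Bool)) (hI : Inv s h A) (hw : w ∈ nb h)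
    (hwA : w ∉ A) : ∑ x ∈ nb w, (if x ∈ A then 0 else (step s h w x).1) = -1 := by
  obtain ⟨k, r⟩ := h
  cases s with
  | root =>
    obtain ⟨h1, h2, h3, h4⟩ := hI
    rcases nb_cases k r w 1 (Or.inl rfl) hw with rfl | rfl | rfl
    · simpa [step] using corner_sum 1 _ A (cornerInv_of 1 k r A (Or.inl rfl) h1 h2 h3)
    · have := corner_sum (-1) _ A (cornerInv_of (-1) k r A (Or.inr rfl) h1 h2 h4)
      have e : ((k - 1, r) : ℤ × Bool) ≠ (k + 1, r) := by
        intro h
        simp only [Prod.mk.injEq, and_true] at h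
        omega
      simpa [step, e, ← sub_eq_add_neg] using this
    · exact absurd h2 hwA
  | T ε =>
    obtain ⟨hε, h1, h2, h3, h4⟩ := hI
    rcases nb_cases k r w ε hε hw with rfl | rfl | rfl
    · simpa [step] using corner_sum ε _ A (cornerInv_of ε k r A hε h1 h2 h4)
    · exact absurd h3 hwA
    · exact absurd h2 hwA
  | S1 ε =>
    obtain ⟨hε, h1, h2, h3, h4, h5, h6⟩ := hI
    dsimp only at h1 h2 h3 h4 h5
    rcases nb_cases k r w ε hε hw with rfl | rfl | rfl
    · rw [sum_nb' _ _ ε hε]
      have f1 : ((k + ε + ε, r) : ℤ × Bool) ∉ A := h6 _ (by rcases hε with rfl | rfl <;> simp)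
      have f2 : ((k + ε - ε, r) : ℤ × Bool) ∈ A := by simpa using h1
      have f3 : ((k + ε, !r) : ℤ × Bool) ∉ A := h6 _ (by rcases hε with rfl | rfl <;> simp)
      have g1 : ((k + ε, r) : ℤ × Bool) ≠ (k, !r) := by simp
      have g2 : ((k + ε + ε, r) : ℤ × Bool) ≠ (k + ε, !r) := by simp
      rw [if_neg f1, if_pos f2, if_neg f3]
      simp [step, g1, g2]
    · exact absurd h2 hwA
    · rw [sum_nb' _ _ ε hε]
      have f1 : ((k + ε, !r) : ℤ × Bool) ∉ A := h6 _ (by rcases hε with rfl | rfl <;> simp)
      have f3 : ((k, !!r) : ℤ × Bool) ∈ A := by simpa using h1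
      have g1 : ((k + ε, !r) : ℤ × Bool) ≠ (k - ε, !r) := by
        intro h
        simp only [Prod.mk.injEq, and_true] at h
        rcases hε with rfl | rfl <;> omega
      rw [if_neg f1, if_neg h5, if_pos f3]
      simp [step, g1]
  | S2 ε =>
    obtain ⟨hε, h1, h2, h3, h4, h5, h6, h7, h8⟩ := hI
    dsimp only at h1 h2 h3 h4 h5 h6 h7
    rcases nb_cases k r w ε hε hw with rfl | rfl | rfl
    · have g1 : ((k + ε, r) : ℤ × Bool) ≠ (k - ε, r) := by
        intro h
        simp only [Prod.mk.injEq, and_true] at h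
        rcases hε with rfl | rfl <;> omega
      simpa [step, g1] using corner_sum ε _ A (cornerInv_of ε k r A hε h1 h2 h8)
    · rw [sum_nb' _ _ ε hε]
      have f1 : ((k - ε + ε, r) : ℤ × Bool) ∈ A := by simpa using h1
      have e2 : ((k - ε - ε, r) : ℤ × Bool) = (k - 2 * ε, r) := by
        congr 1
        ring
      rw [e2, if_pos f1, if_neg h7, if_pos h3]
      simp [step]
    · exact absurd h2 hwA
  | D => exact absurd (hI w hw) hwA

lemma step_inv (s : St) (h w x : ℤ × Bool) (A : Set (ℤ × Bool)) (hI : Inv s h A) (hw : w ∈ nb h)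
    (hwA : w ∉ A) (hc : (step s h w x).1 ≠ 0) :
    Inv (step s h w x).2 x (insert x (insert w A)) := by
  obtain ⟨k, r⟩ := h
  cases s with
  | root =>
    obtain ⟨h1, h2, h3, h4⟩ := hI
    rcases nb_cases k r w 1 (Or.inl rfl) hw with rfl | rfl | rfl
    · have e : step St.root (k, r) (k + 1, r) x = corner 1 (k + 1, r) x := by simp [step]
      rw [e] at hc ⊢
      exact corner_inv 1 _ x A (cornerInv_of 1 k r A (Or.inl rfl) h1 h2 h3) hc
    · have e0 : ((k - 1, r) : ℤ × Bool) ≠ (k + 1, r) := by
        intro h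
        simp only [Prod.mk.injEq, and_true] at h
        omega
      have e : step St.root (k, r) (k - 1, r) x = corner (-1) (k + -1, r) x := by
        simp [step, e0, ← sub_eq_add_neg]
      rw [e] at hc ⊢
      rw [sub_eq_add_neg]
      exact corner_inv (-1) _ x A (cornerInv_of (-1) k r A (Or.inr rfl) h1 h2 h4) hc
    · exact absurd h2 hwA
  | T ε =>
    obtain ⟨hε, h1, h2, h3, h4⟩ := hI
    rcases nb_cases k r w ε hε hw with rfl | rfl | rfl
    · have e : step (St.T ε) (k, r) (k + ε, r) x = corner ε (k + ε, r) x := by simp [step]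
      rw [e] at hc ⊢
      exact corner_inv ε _ x A (cornerInv_of ε k r A hε h1 h2 h4) hc
    · exact absurd h3 hwA
    · exact absurd h2 hwA
  | S1 ε =>
    obtain ⟨hε, h1, h2, h3, h4, h5, h6⟩ := hI
    dsimp only at h1 h2 h3 h4 h5
    rcases nb_cases k r w ε hε hw with rfl | rfl | rfl
    · have g1 : ((k + ε, r) : ℤ × Bool) ≠ (k, !r) := by simp
      by_cases hx : x = (k + ε, !r)
      · subst hx
        have e : step (St.S1 ε) (k, r) (k + ε, r) (k + ε, !r) = (-1, St.S2 ε) := by
          simp [step, g1]
        rw [e]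
        refine ⟨hε, by simp, by simp, ?_, ?_, ?_, ?_, ?_, ?_⟩
        · refine Or.inr (Or.inr ?_)
          simpa using h1
        · refine Or.inr (Or.inr ?_)
          have : (k + ε - 2 * ε, !!r) = (k - ε, r) := by
            simp only [Bool.not_not, Prod.mk.injEq, and_true]
            ring
          dsimp only
          rw [this]
          exact h2
        · refine Or.inr (Or.inr ?_)
          have : (k + ε - 3 * ε, !r) = (k - 2 * ε, !r) := by
            congr 1
            ring
          dsimp only
          rw [this]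
          exact h3
        · rintro (h' | h' | h')
          · simp only [Prod.mk.injEq, and_true] at h'
            rcases hε with rfl | rfl <;> omega
          · simp at h'
          · apply h4
            simpa using h'
        · rintro (h' | h' | h')
          · simp only [Prod.mk.injEq, and_true] at h'
            rcases hε with rfl | rfl <;> omega
          · simp at h'
          · apply h5
            have : (k + ε - 2 * ε, !r) = (k - ε, !r) := by
              congr 1
              ring
            dsimp only at h'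
            rwa [this] at h'
        · intro z hz hmem
          rcases hmem with rfl | rfl | hmem
          · simp at hz
          · simp at hz
          · refine h6 z ?_ hmem
            rcases hε with rfl | rfl <;> dsimp only at hz ⊢ <;> omega
      · exfalso
        apply hc
        simp [step, g1, hx]
    · exact absurd h2 hwA
    · by_cases hx : x = (k - ε, !r)
      · subst hx
        have e : step (St.S1 ε) (k, r) (k, !r) (k - ε, !r) = (-1, St.D) := by simp [step]
        rw [e]
        intro q hq
        rcases nb_cases _ _ q ε hε hq with rfl | rfl | rfl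
        · right; left; simp
        · refine Or.inr (Or.inr ?_)
          have : (k - ε - ε, !r) = (k - 2 * ε, !r) := by
            congr 1
            ring
          rw [this]
          exact h3
        · refine Or.inr (Or.inr ?_)
          simpa using h2
      · exfalso
        apply hc
        simp [step, hx]
  | S2 ε =>
    obtain ⟨hε, h1, h2, h3, h4, h5, h6, h7, h8⟩ := hI
    dsimp only at h1 h2 h3 h4 h5 h6 h7
    rcases nb_cases k r w ε hε hw with rfl | rfl | rfl
    · have g1 : ((k + ε, r) : ℤ × Bool) ≠ (k - ε, r) := by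
        intro h
        simp only [Prod.mk.injEq, and_true] at h
        rcases hε with rfl | rfl <;> omega
      have e : step (St.S2 ε) (k, r) (k + ε, r) x = corner ε (k + ε, r) x := by simp [step, g1]
      rw [e] at hc ⊢
      exact corner_inv ε _ x A (cornerInv_of ε k r A hε h1 h2 h8) hc
    · by_cases hx : x = (k - 2 * ε, r)
      · subst hx
        have e : step (St.S2 ε) (k, r) (k - ε, r) (k - 2 * ε, r) = (-1, St.D) := by simp [step]
        rw [e]
        intro q hq
        rcases nb_cases _ _ q ε hε hq with rfl | rfl | rfl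
        · right; left
          simp only [Prod.mk.injEq, and_true]
          ring
        · refine Or.inr (Or.inr ?_)
          have : (k - 2 * ε - ε, r) = (k - 3 * ε, r) := by
            congr 1
            ring
          rw [this]
          exact h5
        · exact Or.inr (Or.inr h4)
      · exfalso
        apply hc
        simp [step, hx]
    · exact absurd h2 hwA
  | D => exact absurd (hI w hw) hwA

/-- Bound for the sum of the squares below a state. -/
def bnd : St → ℝ
  | St.root => 5
  | St.T _ => 3
  | St.S1 _ => 6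
  | St.S2 _ => 4
  | St.D => 1

/-- The direction in a state is `1` or `-1`. -/
def Good : St → Prop
  | St.root => True
  | St.T ε => ε = 1 ∨ ε = -1
  | St.S1 ε => ε = 1 ∨ ε = -1
  | St.S2 ε => ε = 1 ∨ ε = -1
  | St.D => True

lemma corner_good (ε : ℤ) (hε : ε = 1 ∨ ε = -1) (w x : ℤ × Bool) : Good (corner ε w x).2 := by
  unfold corner
  split_ifs <;> simp [Good, hε]

lemma step_good (s : St) (hs : Good s) (h w x : ℤ × Bool) : Good (step s h w x).2 := by
  cases s with
  | root =>
    simp only [step]
    split_ifs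
    · exact corner_good 1 (Or.inl rfl) w x
    · exact corner_good (-1) (Or.inr rfl) w x
    · trivial
  | T ε =>
    simp only [step]
    split_ifs
    · exact corner_good ε hs w x
    · trivial
  | S1 ε =>
    simp only [step]
    split_ifs
    · trivial
    · trivial
    · exact hs
    · trivial
    · trivial
  | S2 ε =>
    simp only [step]
    split_ifs
    · trivial
    · trivial
    · exact corner_good ε hs w x
    · trivial
  | D => trivial

lemma corner_bnd (ε k : ℤ) (r : Bool) (hε : ε = 1 ∨ ε = -1) :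
    ∑ x ∈ nb (k, r), (corner ε (k, r) x).1 ^ 2 * bnd (corner ε (k, r) x).2 = 2 := by
  rw [sum_nb' _ _ ε hε]
  have g1 : ((k + ε, r) : ℤ × Bool) ≠ (k, !r) := by simp
  have g2 : ((k - ε, r) : ℤ × Bool) ≠ (k, !r) := by simp
  have g3 : ((k - ε, r) : ℤ × Bool) ≠ (k + ε, r) := by
    intro h
    simp only [Prod.mk.injEq, and_true] at h
    rcases hε with rfl | rfl <;> omega
  simp only [corner, g1, g2, g3, if_true, if_false, bnd]
  norm_num

lemma step_bnd (s : St) (hs : Good s) (h : ℤ × Bool) :
    1 + ∑ w ∈ nb h, ∑ x ∈ nb w, (step s h w x).1 ^ 2 * bnd (step s h w x).2 ≤ bnd s := by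
  obtain ⟨k, r⟩ := h
  cases s with
  | root =>
    rw [sum_nb' k r 1 (Or.inl rfl)]
    have g1 : ((k - 1, r) : ℤ × Bool) ≠ (k + 1, r) := by
      intro h
      simp only [Prod.mk.injEq, and_true] at h
      omega
    have e1 : ∀ x, step St.root (k, r) (k + 1, r) x = corner 1 (k + 1, r) x := by
      intro x; simp [step]
    have e2 : ∀ x, step St.root (k, r) (k - 1, r) x = corner (-1) (k - 1, r) x := by
      intro x; simp [step, g1]
    have e3 : ∀ x, step St.root (k, r) (k, !r) x = (0, St.D) := by
      intro x; simp [step]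
    simp only [e1, e2, e3, corner_bnd 1 _ _ (Or.inl rfl), corner_bnd (-1) _ _ (Or.inr rfl)]
    norm_num [bnd]
  | T ε =>
    have hε : ε = 1 ∨ ε = -1 := hs
    rw [sum_nb' k r ε hε]
    have g1 : ((k - ε, r) : ℤ × Bool) ≠ (k + ε, r) := by
      intro h
      simp only [Prod.mk.injEq, and_true] at h
      rcases hε with rfl | rfl <;> omega
    have e1 : ∀ x, step (St.T ε) (k, r) (k + ε, r) x = corner ε (k + ε, r) x := by
      intro x; simp [step]
    have e2 : ∀ x, step (St.T ε) (k, r) (k - ε, r) x = (0, St.D) := by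
      intro x; simp only [step, g1, if_false]
    have e3 : ∀ x, step (St.T ε) (k, r) (k, !r) x = (0, St.D) := by
      intro x; simp [step]
    simp only [e1, e2, e3, corner_bnd ε _ _ hε]
    norm_num [bnd]
  | S1 ε =>
    have hε : ε = 1 ∨ ε = -1 := hs
    rw [sum_nb' k r ε hε]
    have g1 : ((k - ε, r) : ℤ × Bool) ≠ (k + ε, r) := by
      intro h
      simp only [Prod.mk.injEq, and_true] at h
      rcases hε with rfl | rfl <;> omega
    have g2 : ((k - ε, r) : ℤ × Bool) ≠ (k, !r) := by simp
    have g3 : ((k + ε, r) : ℤ × Bool) ≠ (k, !r) := by simp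
    have e2 : ∀ x, step (St.S1 ε) (k, r) (k - ε, r) x = (0, St.D) := by
      intro x; simp only [step, g1, g2, if_false]
    simp only [e2]
    rw [sum_nb' (k + ε) r ε hε, sum_nb' k (!r) ε hε]
    have a1 : step (St.S1 ε) (k, r) (k + ε, r) (k + ε + ε, r) = (0, St.D) := by
      have : ((k + ε + ε, r) : ℤ × Bool) ≠ (k + ε, !r) := by simp
      simp only [step, g3, if_false, if_true, this]
    have a2 : step (St.S1 ε) (k, r) (k + ε, r) (k + ε - ε, r) = (0, St.D) := by
      have : ((k + ε - ε, r) : ℤ × Bool) ≠ (k + ε, !r) := by simp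
      simp only [step, g3, if_false, if_true, this]
    have a3 : step (St.S1 ε) (k, r) (k + ε, r) (k + ε, !r) = (-1, St.S2 ε) := by
      simp only [step, g3, if_false, if_true]
    have b1 : step (St.S1 ε) (k, r) (k, !r) (k + ε, !r) = (0, St.D) := by
      have : ((k + ε, !r) : ℤ × Bool) ≠ (k - ε, !r) := by
        intro h
        simp only [Prod.mk.injEq, and_true] at h
        rcases hε with rfl | rfl <;> omega
      simp only [step, if_false, if_true, this]
    have b2 : step (St.S1 ε) (k, r) (k, !r) (k - ε, !r) = (-1, St.D) := by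
      simp only [step, if_true]
    have b3 : step (St.S1 ε) (k, r) (k, !r) (k, !!r) = (0, St.D) := by
      have : ((k, !!r) : ℤ × Bool) ≠ (k - ε, !r) := by
        intro h
        simp at h
      simp only [step, if_false, if_true, this]
    rw [a1, a2, a3, b1, b2, b3]
    norm_num [bnd]
  | S2 ε =>
    have hε : ε = 1 ∨ ε = -1 := hs
    rw [sum_nb' k r ε hε]
    have g1 : ((k + ε, r) : ℤ × Bool) ≠ (k - ε, r) := by
      intro h
      simp only [Prod.mk.injEq, and_true] at h
      rcases hε with rfl | rfl <;> omega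
    have g2 : ((k, !r) : ℤ × Bool) ≠ (k - ε, r) := by
      intro h
      simp at h
    have g3 : ((k, !r) : ℤ × Bool) ≠ (k + ε, r) := by
      intro h
      simp at h
    have e1 : ∀ x, step (St.S2 ε) (k, r) (k + ε, r) x = corner ε (k + ε, r) x := by
      intro x; simp only [step, g1, if_false, if_true]
    have e3 : ∀ x, step (St.S2 ε) (k, r) (k, !r) x = (0, St.D) := by
      intro x; simp only [step, g2, g3, if_false]
    simp only [e1, e3, corner_bnd ε _ _ hε]
    rw [sum_nb' (k - ε) r ε hε]
    have a1 : step (St.S2 ε) (k, r) (k - ε, r) (k - ε + ε, r) = (0, St.D) := by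
      have : ((k - ε + ε, r) : ℤ × Bool) ≠ (k - 2 * ε, r) := by
        intro h
        simp only [Prod.mk.injEq, and_true] at h
        rcases hε with rfl | rfl <;> omega
      simp only [step, if_true, this, if_false]
    have a2 : step (St.S2 ε) (k, r) (k - ε, r) (k - ε - ε, r) = (-1, St.D) := by
      have : ((k - ε - ε, r) : ℤ × Bool) = (k - 2 * ε, r) := by
        congr 1
        ring
      simp only [step, if_true, this]
    have a3 : step (St.S2 ε) (k, r) (k - ε, r) (k - ε, !r) = (0, St.D) := by
      have : ((k - ε, !r) : ℤ × Bool) ≠ (k - 2 * ε, r) := by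
        intro h
        simp at h
      simp only [step, if_true, this, if_false]
    rw [a1, a2, a3]
    norm_num [bnd]
  | D => simp [step, bnd]

/-! ### The kernel vector -/

/-- Value and state attached to a path (listed from its endpoint back to its origin). -/
noncomputable def sv : List (ℤ × Bool) → ℝ × St
  | [] => (0, St.root)
  | [_] => (1, St.root)
  | [_, _] => (0, St.root)
  | x :: w :: h :: t =>
    ((sv (h :: t)).1 * (step (sv (h :: t)).2 h w x).1, (step (sv (h :: t)).2 h w x).2)

lemma sv_even : ∀ (m : ℕ) (l : List (ℤ × Bool)), l.length = 2 * m → (sv l).1 = 0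
  | 0, [], _ => by simp [sv]
  | 0, _ :: _, h => by simp at h
  | m + 1, [], _ => by simp [sv]
  | m + 1, [_], h => by simp only [List.length_cons, List.length_nil] at h; omega
  | m + 1, [_, _], _ => by simp [sv]
  | m + 1, _ :: _ :: h :: t, hl => by
    have := sv_even m (h :: t) (by simp only [List.length_cons] at hl ⊢; omega)
    simp only [sv, this, zero_mul]

lemma sv_good : ∀ l : List (ℤ × Bool), Good (sv l).2
  | [] => by simp [sv, Good]
  | [_] => by simp [sv, Good]
  | [_, _] => by simp [sv, Good]
  | x :: w :: h :: t => by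
    simp only [sv]
    exact step_good _ (sv_good (h :: t)) h w x

variable {u v : ℤ × Bool}

lemma del_adj {a b : ℤ × Bool} (h : (deleteVertex ladder u).Adj a b) : ladder.Adj a b := h.1

lemma hnb (a b : ℤ × Bool) (h : (deleteVertex ladder u).Adj a b) : b ∈ nb a :=
  (mem_nb a b).2 h.1

/-- The visited set of a path, including the deleted vertex. -/
def vis (u : ℤ × Bool) (l : List (ℤ × Bool)) : Set (ℤ × Bool) := insert u {z | z ∈ l}

lemma path_w (w h : ℤ × Bool) (t : List (ℤ × Bool))
    (hp : IsPathFrom (deleteVertex ladder u) v (w :: h :: t)) :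
    w ∈ nb h ∧ w ∉ vis u (h :: t) ∧ IsPathFrom (deleteVertex ladder u) v (h :: t) := by
  obtain ⟨h1, h2, h3⟩ := hp
  have hadj := (List.isChain_cons_cons.mp h1).1
  refine ⟨hnb _ _ hadj.symm, ?_, ⟨(List.isChain_cons_cons.mp h1).2, (List.nodup_cons.mp h2).2, ?_⟩⟩
  · rintro (hw | hw)
    · exact hadj.2.1 hw
    · exact (List.nodup_cons.mp h2).1 hw
  · rwa [List.getLast?_cons_cons] at h3

lemma sv_inv (huv : v = (u.1, !u.2)) : ∀ (h : ℤ × Bool) (t : List (ℤ × Bool)),
    IsPathFrom (deleteVertex ladder u) v (h :: t) → (sv (h :: t)).1 ≠ 0 →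
      Inv (sv (h :: t)).2 h (vis u (h :: t))
  | h, [], hp, _ => by
    have hv : h = v := by
      have := hp.2.2
      simpa using this
    subst hv
    rw [huv]
    simp only [sv]
    refine ⟨Or.inr (by simp), Or.inl (by simp), ?_, ?_⟩
    · rintro z hz (rfl | hz')
      · simp at hz
      · have : z = (u.1, !u.2) := by simpa using hz'
        subst this
        simp at hz
    · rintro z hz (rfl | hz')
      · simp at hz
      · have : z = (u.1, !u.2) := by simpa using hz'
        subst this
        simp at hz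
  | x, [w], hp, h0 => by
    simp [sv] at h0
  | x, w :: h :: t, hp, h0 => by
    simp only [sv] at h0 ⊢
    obtain ⟨ha, hc⟩ := mul_ne_zero_iff.mp h0
    obtain ⟨hx1, hx2, hp'⟩ := path_w x w (h :: t) hp
    obtain ⟨hw1, hw2, hp''⟩ := path_w w h t hp'
    have ih := sv_inv huv h t hp'' ha
    have := step_inv _ h w x _ ih hw1 hw2 hc
    have e : (insert x (insert w (vis u (h :: t))) : Set (ℤ × Bool)) =
        vis u (x :: w :: h :: t) := by
      ext z
      simp only [vis, Set.mem_insert_iff, Set.mem_ofPred_eq, List.mem_cons]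
      tauto
    rwa [e] at this

/-- The kernel vector on the path tree. -/
noncomputable def kv (u v : ℤ × Bool) (q : PathFrom (deleteVertex ladder u) v) : ℝ := (sv q.1).1

open Classical in
lemma kv_kernel (huv : v = (u.1, !u.2)) (p : PathFrom (deleteVertex ladder u) v) :
    adjOp (pathTree (deleteVertex ladder u) v) (kv u v) p = 0 := by
  obtain ⟨l, hp⟩ := p
  rcases Nat.even_or_odd' l.length with ⟨m, hm | hm⟩
  · -- even number of vertices
    match l, hp, hm with
    | [], hp, _ => exact absurd hp.2.2 (by simp)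
    | [_], _, hm => simp only [List.length_cons, List.length_nil] at hm; omega
    | w :: h :: t, hp, hm =>
      have key := adjOp_pathTree nb hnb (fun l => (sv l).1) w h t hp
      refine key.trans ?_
      obtain ⟨hw1, hw2, hp'⟩ := path_w w h t hp
      by_cases ha : (sv (h :: t)).1 = 0
      · rw [ha, zero_add]
        refine Finset.sum_eq_zero fun y _ => ?_
        split_ifs
        · simp only [sv, ha, zero_mul]
        · rfl
      · have hI := sv_inv huv h t hp' ha
        have hs := step_sum _ h w _ hI hw1 hw2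
        have e : ∀ y ∈ nb w, (if IsPathFrom (deleteVertex ladder u) v (y :: w :: h :: t) then
            (sv (y :: w :: h :: t)).1 else 0) =
            (sv (h :: t)).1 * (if y ∈ vis u (h :: t) then 0
              else (step (sv (h :: t)).2 h w y).1) := by
          intro y hy
          by_cases hyA : y ∈ vis u (h :: t)
          · rw [if_pos hyA, mul_zero, if_neg]
            intro hcon
            have := (path_w y w (h :: t) hcon).2.1
            apply this
            rcases hyA with h1 | h1
            · exact Or.inl h1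
            · exact Or.inr (List.mem_cons_of_mem _ h1)
          · rw [if_neg hyA, if_pos]
            · simp only [sv]
            · have hadj : ladder.Adj y w := ((mem_nb w y).1 hy).symm
              have hyu : y ≠ u := fun h1 => hyA (Or.inl h1)
              have hwu : w ≠ u := fun h1 => hw2 (Or.inl h1)
              refine ⟨List.isChain_cons_cons.mpr ⟨⟨hadj, hyu, hwu⟩, hp.1⟩,
                List.nodup_cons.mpr ⟨?_, hp.2.1⟩, ?_⟩
              · intro hmem
                rcases List.mem_cons.mp hmem with h1 | h1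
                · exact hadj.ne h1
                · exact hyA (Or.inr h1)
              · rw [List.getLast?_cons_cons]
                exact hp.2.2
        rw [Finset.sum_congr rfl e, ← Finset.mul_sum, hs]
        ring
  · -- odd number of vertices: all neighbours have value zero
    rw [adjOp_eq (pathTree_fin (o := v) nb hnb)]
    refine Finset.sum_eq_zero fun q hq => ?_
    rcases (mem_nbF _ _ _).mp hq with ⟨x, hx⟩ | ⟨x, hx⟩
    · refine sv_even m q.1 ?_
      have := congrArg List.length hx
      simp only [List.length_cons] at this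
      omega
    · refine sv_even (m + 1) q.1 ?_
      have := congrArg List.length hx
      simp only [List.length_cons] at this
      omega

/-! ### Square summability -/

/-- Partial sums of squares over the extensions of a path. -/
noncomputable def part : ℕ → List (ℤ × Bool) → ℝ
  | 0, _ => 0
  | _ + 1, [] => 0
  | n + 1, h :: t => (sv (h :: t)).1 ^ 2 + ∑ w ∈ nb h, ∑ x ∈ nb w, part n (x :: w :: h :: t)

lemma bnd_nonneg (s : St) : 0 ≤ bnd s := by cases s <;> norm_num [bnd]

lemma part_le (n : ℕ) : ∀ l : List (ℤ × Bool), part n l ≤ (sv l).1 ^ 2 * bnd (sv l).2 := by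
  induction n with
  | zero =>
    intro l
    simp only [part]
    exact mul_nonneg (sq_nonneg _) (bnd_nonneg _)
  | succ n ih =>
    intro l
    cases l with
    | nil =>
      simp only [part]
      exact mul_nonneg (sq_nonneg _) (bnd_nonneg _)
    | cons h t =>
      simp only [part]
      have h1 : ∑ w ∈ nb h, ∑ x ∈ nb w, part n (x :: w :: h :: t) ≤
          (sv (h :: t)).1 ^ 2 * ∑ w ∈ nb h, ∑ x ∈ nb w,
            (step (sv (h :: t)).2 h w x).1 ^ 2 * bnd (step (sv (h :: t)).2 h w x).2 := by
        rw [Finset.mul_sum]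
        refine Finset.sum_le_sum fun w _ => ?_
        rw [Finset.mul_sum]
        refine Finset.sum_le_sum fun x _ => (ih _).trans (le_of_eq ?_)
        simp only [sv]
        ring
      have h2 := step_bnd (sv (h :: t)).2 (sv_good _) h
      have h3 : 0 ≤ (sv (h :: t)).1 ^ 2 := sq_nonneg _
      nlinarith

open Classical in
lemma sum_le_part (n : ℕ) : ∀ (l : List (ℤ × Bool)), l ≠ [] → ∀ F0 : Finset (List (ℤ × Bool)),
    (∀ l' ∈ F0, l <:+ l' ∧ l'.IsChain ladder.Adj ∧ ∃ m ≤ n, l'.length = l.length + 2 * m) →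
      ∑ l' ∈ F0, (sv l').1 ^ 2 ≤ part (n + 1) l := by
  induction n with
  | zero =>
    intro l hl F0 hF
    have hsub : F0 ⊆ {l} := by
      intro l' hl'
      obtain ⟨h1, -, m, hm, h2⟩ := hF l' hl'
      rw [Finset.mem_singleton]
      exact (h1.eq_of_length (by omega)).symm
    have h1 : ∑ l' ∈ F0, (sv l').1 ^ 2 ≤ ∑ l' ∈ {l}, (sv l').1 ^ 2 :=
      Finset.sum_le_sum_of_subset_of_nonneg hsub fun _ _ _ => sq_nonneg _
    rw [Finset.sum_singleton] at h1
    cases l with
    | nil => exact absurd rfl hl
    | cons h t => simpa [part] using h1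
  | succ n ih =>
    intro l hl F0 hF
    cases l with
    | nil => exact absurd rfl hl
    | cons h t =>
      -- every element is `h :: t` or extends it by two further vertices
      have hcase : ∀ l' ∈ F0, l' = h :: t ∨ ∃ w ∈ nb h, ∃ x ∈ nb w, (x :: w :: h :: t) <:+ l' := by
        intro l' hl'
        obtain ⟨⟨s, hs⟩, hch, m, hm, hlen⟩ := hF l' hl'
        rcases List.eq_nil_or_concat s with rfl | ⟨s', w, rfl⟩
        · left
          simpa using hs.symm
        · right
          rcases List.eq_nil_or_concat s' with rfl | ⟨s'', x, rfl⟩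
          · exfalso
            have := congrArg List.length hs
            simp only [List.concat_eq_append, List.nil_append, List.length_append,
              List.length_cons, List.length_nil] at this hlen
            omega
          · subst hs
            simp only [List.concat_eq_append, List.append_assoc, List.cons_append,
              List.nil_append] at hch ⊢
            have h1 := (List.isChain_append.mp hch).2.1
            obtain ⟨h2, h3⟩ := List.isChain_cons_cons.mp h1
            obtain ⟨h4, -⟩ := List.isChain_cons_cons.mp h3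
            exact ⟨w, (mem_nb _ _).2 h4.symm, x, (mem_nb _ _).2 h2.symm, s'', rfl⟩
      have hpt : ∀ l' ∈ F0, (sv l').1 ^ 2 ≤ (if l' = h :: t then (sv (h :: t)).1 ^ 2 else 0) +
          ∑ w ∈ nb h, ∑ x ∈ nb w, (if (x :: w :: h :: t) <:+ l' then (sv l').1 ^ 2 else 0) := by
        intro l' hl'
        have hnn : ∀ w x : ℤ × Bool,
            0 ≤ (if (x :: w :: h :: t) <:+ l' then (sv l').1 ^ 2 else 0 : ℝ) := by
          intro w x
          split_ifs
          · exact sq_nonneg _
          · exact le_rfl
        rcases hcase l' hl' with rfl | ⟨w, hw, x, hx, hsuf⟩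
        · rw [if_pos rfl]
          have : 0 ≤ ∑ w ∈ nb h, ∑ x ∈ nb w,
              (if (x :: w :: h :: t) <:+ (h :: t) then (sv (h :: t)).1 ^ 2 else 0 : ℝ) :=
            Finset.sum_nonneg fun w _ => Finset.sum_nonneg fun x _ => hnn w x
          linarith
        · have h1 : (sv l').1 ^ 2 ≤ ∑ x ∈ nb w,
              (if (x :: w :: h :: t) <:+ l' then (sv l').1 ^ 2 else 0 : ℝ) := by
            refine le_trans ?_ (Finset.single_le_sum (fun x _ => hnn w x) hx)
            rw [if_pos hsuf]
          have h2 : ∑ x ∈ nb w, (if (x :: w :: h :: t) <:+ l' then (sv l').1 ^ 2 else 0 : ℝ) ≤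
              ∑ w ∈ nb h, ∑ x ∈ nb w,
                (if (x :: w :: h :: t) <:+ l' then (sv l').1 ^ 2 else 0 : ℝ) :=
            Finset.single_le_sum (f := fun w => ∑ x ∈ nb w,
              (if (x :: w :: h :: t) <:+ l' then (sv l').1 ^ 2 else 0 : ℝ))
              (fun w _ => Finset.sum_nonneg fun x _ => hnn w x) hw
          have h3 : (0 : ℝ) ≤ (if l' = h :: t then (sv (h :: t)).1 ^ 2 else 0) := by
            split_ifs
            · exact sq_nonneg _
            · exact le_rfl
          linarith
      refine (Finset.sum_le_sum hpt).trans ?_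
      rw [Finset.sum_add_distrib]
      simp only [part]
      refine add_le_add ?_ ?_
      · rw [Finset.sum_ite_eq']
        split_ifs
        · exact le_rfl
        · exact sq_nonneg _
      · rw [Finset.sum_comm]
        refine Finset.sum_le_sum fun w _ => ?_
        rw [Finset.sum_comm]
        refine Finset.sum_le_sum fun x _ => ?_
        rw [← Finset.sum_filter]
        refine ih (x :: w :: h :: t) (by simp) _ fun l' hl' => ?_
        obtain ⟨hl1, hl2⟩ := Finset.mem_filter.mp hl'
        obtain ⟨-, hch, m, hm, hlen⟩ := hF l' hl1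
        have hle := hl2.length_le
        simp only [List.length_cons] at hlen hle ⊢
        exact ⟨hl2, hch, m - 1, by omega, by omega⟩

lemma kv_sum (F1 : Finset (PathFrom (deleteVertex ladder u) v)) :
    ∑ q ∈ F1, kv u v q ^ 2 ≤ 5 := by
  classical
  set F0 : Finset (List (ℤ × Bool)) := (F1.image Subtype.val).filter fun l => Odd l.length
    with hF0
  set n : ℕ := F0.sup List.length with hn
  have h1 : ∑ q ∈ F1, kv u v q ^ 2 = ∑ l ∈ F0, (sv l).1 ^ 2 := by
    rw [hF0, Finset.sum_filter, Finset.sum_image (fun a _ b _ h => Subtype.ext h)]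
    refine Finset.sum_congr rfl fun q _ => ?_
    split_ifs with hodd
    · rfl
    · obtain ⟨m, hm⟩ := Nat.not_odd_iff_even.mp hodd
      change (sv q.1).1 ^ 2 = 0
      rw [sv_even m q.1 (by omega)]
      norm_num
  have h2 : ∑ l ∈ F0, (sv l).1 ^ 2 ≤ part (n + 1) [v] := by
    refine sum_le_part n [v] (by simp) F0 fun l hl => ?_
    obtain ⟨hl1, hl2⟩ := Finset.mem_filter.mp hl
    obtain ⟨q, -, rfl⟩ := Finset.mem_image.mp hl1
    obtain ⟨s, hs⟩ := List.getLast?_eq_some_iff.mp q.2.2.2
    refine ⟨⟨s, hs.symm⟩, q.2.1.imp fun a b h => h.1, ?_⟩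
    obtain ⟨m, hm⟩ := hl2
    refine ⟨m, ?_, ?_⟩
    · have : q.1.length ≤ n := Finset.le_sup (f := List.length) hl
      omega
    · simp only [List.length_cons, List.length_nil]
      omega
  have h3 := part_le (n + 1) [v]
  rw [h1]
  refine (h2.trans h3).trans ?_
  norm_num [sv, bnd]

/-! ### The ladder is infinite, connected and vertex-transitive -/

lemma ladder_reach (k : ℕ) (a : ℤ) (r : Bool) : ladder.Reachable (a, r) (a + k, r) := by
  induction k with
  | zero => simp
  | succ k ih =>
    refine ih.trans (SimpleGraph.Adj.reachable ?_)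
    rw [← mem_nb]
    have : ((a + ((k + 1 : ℕ) : ℤ), r) : ℤ × Bool) = ((a + k) + 1, r) := by
      push_cast
      congr 1
      ring
    rw [this]
    simp [nb]

lemma ladder_reach' (a b : ℤ) (r : Bool) : ladder.Reachable (a, r) (b, r) := by
  rcases le_total a b with h | h
  · obtain ⟨k, hk⟩ := Int.eq_ofNat_of_zero_le (sub_nonneg.mpr h)
    have := ladder_reach k a r
    rwa [show a + (k : ℤ) = b by omega] at this
  · obtain ⟨k, hk⟩ := Int.eq_ofNat_of_zero_le (sub_nonneg.mpr h)
    have := ladder_reach k b r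
    rw [show b + (k : ℤ) = a by omega] at this
    exact this.symm

lemma ladder_connected : ladder.Connected := by
  refine { preconnected := ?_, nonempty := ⟨(0, true)⟩ }
  rintro ⟨a, r⟩ ⟨b, s⟩
  refine (ladder_reach' a b r).trans ?_
  by_cases h : r = s
  · subst h
    exact SimpleGraph.Reachable.refl _
  · exact SimpleGraph.Adj.reachable (Or.inr ⟨h, rfl⟩)

/-- Automorphism of the ladder: translation by `c` and possibly exchanging the two rows. -/
def ladderIso (c : ℤ) (e : Bool) : ladder ≃g ladder where
  toFun p := (p.1 + c, xor p.2 e)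
  invFun p := (p.1 - c, xor p.2 e)
  left_inv p := by simp
  right_inv p := by simp
  map_rel_iff' := by
    rintro ⟨a, r⟩ ⟨b, s⟩
    change (xor r e = xor s e ∧ |a + c - (b + c)| = 1) ∨ (xor r e ≠ xor s e ∧ a + c = b + c) ↔
      (r = s ∧ |a - b| = 1) ∨ (r ≠ s ∧ a = b)
    rw [add_sub_add_right_eq_sub, add_left_inj]
    cases r <;> cases s <;> cases e <;> simp

lemma ladder_transitive : VertexTransitive ladder := by
  rintro ⟨a, r⟩ ⟨b, s⟩
  refine ⟨ladderIso (b - a) (xor r s), ?_⟩
  change (a + (b - a), xor r (xor r s)) = (b, s)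
  congr 1
  · ring
  · cases r <;> cases s <;> rfl

theorem ladder_zeroPositive (u : ℤ × Bool) : ZeroPositive ladder u := by
  refine ⟨fun v _ => ?_, fun ν hν => ?_⟩
  · obtain ⟨ν, h1, h2, h3⟩ := exists_spectral
      (pathTree_fin (G := deleteVertex ladder u) (o := v) nb hnb) (onePath _ v) 4
      (fun p => pathTree_card nb hnb 3 card_nb p)
    exact ⟨ν, h1, ⟨_, h2⟩, h3⟩
  · have hadj : ladder.Adj u (u.1, !u.2) := Or.inr ⟨by simp, rfl⟩
    obtain ⟨hprob, ⟨D, hD⟩, hmom⟩ := hν _ hadj
    have h1 := atom_bound (pathTree_fin (G := deleteVertex ladder u) (o := (u.1, !u.2)) nb hnb)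
      hprob hD hmom (kv u (u.1, !u.2)) (kv_kernel rfl) (by simp [kv, onePath, sv]) 5 kv_sum
    have h2 : 0 < (ν (u.1, !u.2)).real {0} := by linarith
    have h3 : 0 < ν (u.1, !u.2) {0} := by
      by_contra hcon
      have h4 : ν (u.1, !u.2) {0} = 0 := by simpa using hcon
      rw [Measure.real, h4] at h2
      simp at h2
    refine lt_of_lt_of_le h3 ?_
    exact ENNReal.le_tsum (f := fun v : ladder.neighborSet u => ν v {0}) ⟨(u.1, !u.2), hadj⟩

end Ladder

end Pool.Agent.Lib.MP_703902_co
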